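import Mathlib
import Pool.Agent.W648.DSep.Cube

/-!
# A compact D-separable space without a sigma-disjoint pi-base

Some Cantor cube `2 ^ κ` (with `κ` the supremum of a sequence of cardinals growing so fast that
beyond `κ n` there is still a chain of `κ n` many cardinals below `κ (n + 1)`, each of them more
than a double exponential of the sum of the previous ones) is D-separable, although it satisfies
the countable chain condition and has no countable pi-base, hence no sigma-disjoint pi-base.
-/

set_option autoImplicit false

namespace Pool.Agent.Results.MP_1644e0_gt.CantorCube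

/-- `X` is D-separable: for every sequence of dense sets `D n` there are discrete sets
`F n ⊆ D n` with dense union. -/
def DSeparable (X : Type) [TopologicalSpace X] : Prop :=
  ∀ D : ℕ → Set X, (∀ n, Dense (D n)) →
    ∃ F : ℕ → Set X, (∀ n, F n ⊆ D n ∧ DiscreteTopology (F n)) ∧ Dense (⋃ n, F n)

/-- `X` has a sigma-disjoint pi-base: a family `⋃ n, B n` of nonempty open sets, each `B n`
pairwise disjoint, such that every nonempty open set contains a member of the family. -/
def HasSigmaDisjointPiBase (X : Type) [TopologicalSpace X] : Prop :=
  ∃ B : ℕ → Set (Set X), (∀ n, ∀ V ∈ B n, IsOpen V ∧ V.Nonempty) ∧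
    (∀ n, (B n).PairwiseDisjoint id) ∧
    ∀ U : Set X, IsOpen U → U.Nonempty → ∃ n, ∃ V ∈ B n, V ⊆ U

/-- There is a Cantor cube `ι → Bool` (a compact Hausdorff space) which is D-separable and has no
sigma-disjoint pi-base. -/
theorem result : ∃ ι : Type, CompactSpace (ι → Bool) ∧ T2Space (ι → Bool) ∧
    DSeparable (ι → Bool) ∧ ¬ HasSigmaDisjointPiBase (ι → Bool) := by
  refine ⟨W648.DSep.Idx, inferInstance, inferInstance,
    fun D hD => W648.DSep.dSeparable D hD, ?_⟩
  rintro ⟨B, hB, hd, hpi⟩
  have := W648.DSep.uncountable_idx
  exact W648.DSep.no_sigma_disjoint B hB hd hpi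

end Pool.Agent.Results.MP_1644e0_gt.CantorCube
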